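import Mathlib

open Metric Set

namespace Pool.Agent.K4H52.Brun

/-- A knot in `ℝ^n`: a subset homeomorphic to a sphere `S^k` for some `k`. -/
def IsKnot {n : ℕ} (F : Set (EuclideanSpace ℝ (Fin n))) : Prop :=
  ∃ k : ℕ, Nonempty (sphere (0 : EuclideanSpace ℝ (Fin (k + 1))) 1 ≃ₜ F)

/-- `B` is a ball bounded by `F`: there is a homeomorphism from a closed Euclidean ball onto `B`
that carries the boundary sphere onto `F`. -/
def BoundsBall {n : ℕ} (F B : Set (EuclideanSpace ℝ (Fin n))) : Prop :=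
  ∃ (k : ℕ) (h : closedBall (0 : EuclideanSpace ℝ (Fin (k + 1))) 1 ≃ₜ B),
    F = {y | ∃ x : closedBall (0 : EuclideanSpace ℝ (Fin (k + 1))) 1,
      ‖(x : EuclideanSpace ℝ (Fin (k + 1)))‖ = 1 ∧ (h x : EuclideanSpace ℝ (Fin n)) = y}

/-- A link with `m` components: a family of `m` pairwise disjoint knots. -/
def IsLink {n m : ℕ} (F : Fin m → Set (EuclideanSpace ℝ (Fin n))) : Prop :=
  (∀ a, IsKnot (F a)) ∧ ∀ a b, a ≠ b → Disjoint (F a) (F b)

/-- A family of knots is an unlink if each member bounds a ball disjoint from all the others. -/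
def IsUnlink {n : ℕ} {ι : Type} (F : ι → Set (EuclideanSpace ℝ (Fin n))) : Prop :=
  ∀ a, ∃ B, BoundsBall (F a) B ∧ ∀ b, b ≠ a → Disjoint B (F b)

/-- A Brunnian link: at least three components, not an unlink, every proper sublink is one. -/
def IsBrunnian {n m : ℕ} (F : Fin m → Set (EuclideanSpace ℝ (Fin n))) : Prop :=
  3 ≤ m ∧ IsLink F ∧ ¬ IsUnlink F ∧
    ∀ s : Set (Fin m), s ≠ univ → IsUnlink (fun a : s => F a)

/-- The three components of `L_{i,j,n}` (coordinates are numbered from `0`, so the coordinate `x_q`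
of the problem is `x p` with `q = p + 1`). -/
noncomputable def L (i j n : ℕ) : Fin 3 → Set (EuclideanSpace ℝ (Fin n)) :=
  ![{x | (∑ p : Fin n with p.val + 1 ≤ n - j - 1, x p ^ 2) = 4 ∧
        ∀ p : Fin n, n - j ≤ p.val + 1 → x p = 0},
    {x | (∑ p : Fin n with i + 1 ≤ p.val + 1, x p ^ 2) = 9 ∧
        ∀ p : Fin n, p.val + 1 ≤ i → x p = 0},
    {x | (∑ p : Fin n with p.val + 1 ≤ i, x p ^ 2) +
          1 / 16 * (∑ p : Fin n with n - j ≤ p.val + 1, x p ^ 2) = 1 ∧
        ∀ p : Fin n, i + 1 ≤ p.val + 1 → p.val + 1 ≤ n - j - 1 → x p = 0}]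

end Pool.Agent.K4H52.Brun
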