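import Mathlib
import Pool.Agent.K4H52.Brun.Defs

open Metric Set

namespace Pool.Agent.K4H52.Brun

theorem BoundsBall.isKnot {n : ℕ} {F B : Set (EuclideanSpace ℝ (Fin n))} (h : BoundsBall F B) :
    IsKnot F := by
  obtain ⟨k, h, hF⟩ := h
  refine ⟨k, ?_⟩
  let g : sphere (0 : EuclideanSpace ℝ (Fin (k + 1))) 1 → EuclideanSpace ℝ (Fin n) :=
    fun x => h ⟨x.1, sphere_subset_closedBall x.2⟩
  have hg : Topology.IsEmbedding g := by
    have h1 : Topology.IsEmbedding (fun x : sphere (0 : EuclideanSpace ℝ (Fin (k + 1))) 1 =>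
        (⟨x.1, sphere_subset_closedBall x.2⟩ : closedBall (0 : EuclideanSpace ℝ (Fin (k + 1))) 1)) :=
      Topology.IsEmbedding.inclusion sphere_subset_closedBall
    exact Topology.IsEmbedding.subtypeVal.comp (h.isEmbedding.comp h1)
  have hr : range g = F := by
    rw [hF]
    ext y
    constructor
    · rintro ⟨x, rfl⟩
      exact ⟨⟨x.1, sphere_subset_closedBall x.2⟩, mem_sphere_zero_iff_norm.1 x.2, rfl⟩
    · rintro ⟨x, hx, rfl⟩
      exact ⟨⟨x.1, by simpa using hx⟩, rfl⟩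
  exact ⟨hg.toHomeomorph.trans (Homeomorph.setCongr hr)⟩

/-- Ellipsoids in coordinate subspaces bound half-ellipsoids (and flat balls, for `t = 0`). -/
theorem hemi {n : ℕ} (S : Finset (Fin n)) (hS : S.Nonempty) (s : Fin n → ℝ) (hs : ∀ p, 0 < s p)
    (k0 : Fin n) (hk0 : k0 ∉ S) (t : ℝ) :
    BoundsBall {y | (∀ p, p ∉ S → y p = 0) ∧ ∑ p ∈ S, (y p / s p) ^ 2 = 1}
      {y | (∀ p, p ∉ S → p ≠ k0 → y p = 0) ∧ ∑ p ∈ S, (y p / s p) ^ 2 ≤ 1 ∧
        y k0 = t * Real.sqrt (1 - ∑ p ∈ S, (y p / s p) ^ 2)} := by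
  classical
  obtain ⟨k, hk⟩ : ∃ k, S.card = k + 1 := ⟨S.card - 1, by
    have := Finset.card_pos.2 hS; omega⟩
  let σ : Fin (k + 1) ≃ S := (finCongr hk.symm).trans S.equivFin.symm
  let f : EuclideanSpace ℝ (Fin (k + 1)) → EuclideanSpace ℝ (Fin n) := fun x =>
    WithLp.toLp 2 (fun p => if h : p ∈ S then s p * x (σ.symm ⟨p, h⟩) else
      if p = k0 then t * Real.sqrt (1 - ∑ a, x a ^ 2) else 0)
  let g : EuclideanSpace ℝ (Fin n) → EuclideanSpace ℝ (Fin (k + 1)) := fun y =>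
    WithLp.toLp 2 (fun a => y (σ a) / s (σ a))
  have hsum : ∀ G : Fin n → ℝ, ∑ p ∈ S, G p = ∑ a, G (σ a) := by
    intro G
    rw [← Finset.sum_coe_sort S G]
    exact (Equiv.sum_comp σ (fun p : S => G p)).symm
  have hf1 : ∀ x a, f x (σ a) = s (σ a) * x a := by
    intro x a
    simp only [f]
    rw [dif_pos (σ a).2]
    simp
  have hfsum : ∀ x, ∑ p ∈ S, (f x p / s p) ^ 2 = ∑ a, x a ^ 2 := by
    intro x
    rw [hsum]
    refine Finset.sum_congr rfl fun a _ => ?_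
    rw [hf1, mul_div_cancel_left₀ _ (hs _).ne']
  have hf0 : ∀ x p, p ∉ S → p ≠ k0 → f x p = 0 := by
    intro x p hp hp0
    simp [f, hp, hp0]
  have hfk : ∀ x, f x k0 = t * Real.sqrt (1 - ∑ a, x a ^ 2) := by
    intro x
    simp [f, hk0]
  have hgf : ∀ x, g (f x) = x := by
    intro x
    ext a
    simp only [g]
    rw [hf1, mul_div_cancel_left₀ _ (hs _).ne']
  have hgsum : ∀ y, ∑ a, g y a ^ 2 = ∑ p ∈ S, (y p / s p) ^ 2 := by
    intro y
    rw [hsum]
  have hfg : ∀ y : EuclideanSpace ℝ (Fin n), (∀ p, p ∉ S → p ≠ k0 → y p = 0) →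
      y k0 = t * Real.sqrt (1 - ∑ p ∈ S, (y p / s p) ^ 2) → f (g y) = y := by
    intro y h1 h2
    ext p
    by_cases hp : p ∈ S
    · have := hf1 (g y) (σ.symm ⟨p, hp⟩)
      simp only [Equiv.apply_symm_apply] at this
      rw [this]
      simp only [g, Equiv.apply_symm_apply]
      rw [mul_div_cancel₀ _ (hs _).ne']
    · by_cases hp0 : p = k0
      · rw [hp0, hfk, hgsum, h2]
      · rw [hf0 _ _ hp hp0, h1 p hp hp0]
  have hfc : Continuous f := by
    refine (PiLp.continuous_toLp 2 _).comp (continuous_pi fun p => ?_)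
    split_ifs
    · fun_prop
    · fun_prop
    · fun_prop
  have hgc : Continuous g := by
    refine (PiLp.continuous_toLp 2 _).comp (continuous_pi fun a => ?_)
    fun_prop
  have hnorm : ∀ x : EuclideanSpace ℝ (Fin (k + 1)), ‖x‖ ^ 2 = ∑ a, x a ^ 2 := by
    intro x
    rw [EuclideanSpace.norm_sq_eq]
    simp
  have hball : ∀ x : EuclideanSpace ℝ (Fin (k + 1)), ‖x‖ ≤ 1 ↔ ∑ a, x a ^ 2 ≤ 1 := by
    intro x
    rw [← hnorm, sq_le_one_iff₀ (norm_nonneg _)]
  have hsph : ∀ x : EuclideanSpace ℝ (Fin (k + 1)), ‖x‖ = 1 ↔ ∑ a, x a ^ 2 = 1 := by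
    intro x
    rw [← hnorm]
    constructor
    · intro h; rw [h]; norm_num
    · intro h
      have := norm_nonneg x
      nlinarith
  refine ⟨k, ⟨⟨fun x => ⟨f x.1, ?_⟩, fun y => ⟨g y.1, ?_⟩, ?_, ?_⟩, ?_, ?_⟩, ?_⟩
  · refine ⟨fun p hp hp0 => hf0 _ _ hp hp0, ?_, ?_⟩
    · rw [hfsum]
      exact (hball x.1).1 (mem_closedBall_zero_iff.1 x.2)
    · rw [hfsum, hfk]
  · rw [mem_closedBall_zero_iff, hball, hgsum]
    exact y.2.2.1
  · intro x
    apply Subtype.ext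
    exact hgf x.1
  · intro y
    apply Subtype.ext
    exact hfg y.1 y.2.1 y.2.2.2
  · exact Continuous.subtype_mk (hfc.comp continuous_subtype_val) _
  · exact Continuous.subtype_mk (hgc.comp continuous_subtype_val) _
  · ext y
    constructor
    · rintro ⟨h1, h2⟩
      have hy0 : y k0 = t * Real.sqrt (1 - ∑ p ∈ S, (y p / s p) ^ 2) := by
        rw [h2, h1 k0 hk0]; simp
      refine ⟨⟨g y, ?_⟩, ?_, ?_⟩
      · rw [mem_closedBall_zero_iff, hball, hgsum, h2]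
      · rw [hsph, hgsum, h2]
      · exact hfg y (fun p hp _ => h1 p hp) hy0
    · rintro ⟨x, hx, rfl⟩
      rw [hsph] at hx
      refine ⟨fun p hp => ?_, ?_⟩
      · by_cases hp0 : p = k0
        · rw [hp0]
          show f x.1 k0 = 0
          rw [hfk, hx]; simp
        · exact hf0 _ _ hp hp0
      · show ∑ p ∈ S, (f x.1 p / s p) ^ 2 = 1
        rw [hfsum, hx]

end Pool.Agent.K4H52.Brun
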