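import Mathlib
import Pool.Agent.Helper133.Brouwer

open Metric Set Filter Topology

namespace Pool.Agent.K4H52.Brun

/-- Degree argument: a continuous map, nonvanishing off `c`, constant near infinity, cannot look
like a linear isomorphism near `c`. -/
theorem topo {W : Type*} [NormedAddCommGroup W] [NormedSpace ℝ W] [FiniteDimensional ℝ W]
    (G : W × ℝ → W × ℝ) (hG : Continuous G) (c : W × ℝ) (R ε : ℝ) (hR : 0 < R) (hε : 0 < ε)
    (hne : ∀ x, x ≠ c → G x ≠ 0) (hinf : ∀ x, R ≤ ‖x - c‖ → G x = (0, 1))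
    (hloc : ∀ x : W × ℝ, ‖x‖ = ε → ∀ l : ℝ, 0 < l → (G (c + x)).1 = -(l • x.1) →
      (G (c + x)).2 = l * x.2 → False) : False := by
  classical
  -- the inverted map
  set T : W × ℝ → W × ℝ := fun x => G (c + (ε / ‖x‖ ^ 2) • x) with hT
  set A : W × ℝ → W × ℝ := fun x => if x = 0 then (0, 1) else T x with hA
  have hAne : ∀ x, A x ≠ 0 := by
    intro x
    by_cases hx : x = 0
    · simp only [hA, hx, if_true]
      intro h
      have := congrArg Prod.snd h
      simp at this
    · simp only [hA, hx, if_false]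
      apply hne
      intro h
      have h1 : (ε / ‖x‖ ^ 2) • x = 0 := by simpa using h
      rw [smul_eq_zero] at h1
      rcases h1 with h1 | h1
      · have : 0 < ε / ‖x‖ ^ 2 := div_pos hε (pow_pos (norm_pos_iff.2 hx) 2)
        exact this.ne' h1
      · exact hx h1
  have hAnear : ∀ x, ‖x‖ < ε / R → A x = (0, 1) := by
    intro x hx
    by_cases hx0 : x = 0
    · simp only [hA, hx0, if_true]
    · simp only [hA, hx0, if_false, hT]
      apply hinf
      have hxp : 0 < ‖x‖ := norm_pos_iff.2 hx0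
      rw [add_sub_cancel_left, norm_smul, Real.norm_eq_abs, abs_of_pos (div_pos hε (pow_pos hxp 2))]
      have : ε / ‖x‖ ^ 2 * ‖x‖ = ε / ‖x‖ := by
        field_simp
      rw [this, le_div_iff₀ hxp]
      rw [lt_div_iff₀ hR] at hx
      linarith
  have hAc : Continuous A := by
    rw [continuous_iff_continuousAt]
    intro x
    by_cases hx0 : x = 0
    · have : A =ᶠ[𝓝 x] fun _ => (0, 1) := by
        rw [hx0]
        filter_upwards [Metric.ball_mem_nhds (0 : W × ℝ) (div_pos hε hR)] with y hy
        exact hAnear y (by simpa using hy)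
      exact (continuousAt_const).congr this.symm
    · have : A =ᶠ[𝓝 x] T := by
        filter_upwards [isOpen_ne.mem_nhds hx0] with y hy
        simp only [hA]
        rw [if_neg hy]
      refine ContinuousAt.congr ?_ this.symm
      have h1 : ContinuousAt (fun y : W × ℝ => c + (ε / ‖y‖ ^ 2) • y) x := by
        have h0 : ContinuousAt (fun y : W × ℝ => ε / ‖y‖ ^ 2) x := by
          refine continuousAt_const.div (by fun_prop) ?_
          exact pow_ne_zero 2 (norm_pos_iff.2 hx0).ne'
        have h2 : ContinuousAt (fun y : W × ℝ => (ε / ‖y‖ ^ 2) • y) x := by fun_prop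
        exact continuousAt_const.add h2
      exact ContinuousAt.comp (f := fun y : W × ℝ => c + (ε / ‖y‖ ^ 2) • y) (g := G) hG.continuousAt h1
  -- reflect
  set B : W × ℝ → W × ℝ := fun x => ((A x).1, -(A x).2) with hB
  have hBc : Continuous B := (continuous_fst.comp hAc).prodMk (continuous_snd.comp hAc).neg
  have hBne : ∀ x, B x ≠ 0 := by
    intro x hx
    apply hAne x
    have h1 : (A x).1 = 0 := congrArg Prod.fst hx
    have h2 : -(A x).2 = 0 := congrArg Prod.snd hx
    exact Prod.ext h1 (by simpa using h2)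
  have hBn : ∀ x, 0 < ‖B x‖ := fun x => norm_pos_iff.2 (hBne x)
  obtain ⟨x, hx⟩ := Pool.Agent.Helper133.Brouwer.brouwer (fun x => -(‖B x‖⁻¹ • B x))
    ((hBc.norm.inv₀ (fun x => (hBn x).ne')).smul hBc).neg 1 (by
      intro x
      rw [norm_neg, norm_smul, norm_inv, norm_norm, inv_mul_cancel₀ (hBn x).ne'])
  have hxn : ‖x‖ = 1 := by
    rw [← hx]
    rw [norm_neg, norm_smul, norm_inv, norm_norm, inv_mul_cancel₀ (hBn x).ne']
  have hx0 : x ≠ 0 := by
    intro h; rw [h] at hxn; simp at hxn
  have hBx : B x = -(‖B x‖ • x) := by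
    have : ‖B x‖ • (-(‖B x‖⁻¹ • B x)) = ‖B x‖ • x := congrArg (fun y => ‖B x‖ • y) hx
    rw [smul_neg, smul_smul, mul_inv_cancel₀ (hBn x).ne', one_smul] at this
    rw [← this, neg_neg]
  have hAx : A x = G (c + ε • x) := by
    simp only [hA, if_neg hx0, hT, hxn]
    norm_num
  apply hloc (ε • x) (by rw [norm_smul, hxn, Real.norm_eq_abs, abs_of_pos hε, mul_one])
    (‖B x‖ / ε) (div_pos (hBn x) hε)
  · rw [← hAx]
    have h1 : (A x).1 = (-(‖B x‖ • x)).1 := by rw [← hBx]
    rw [h1]
    simp only [Prod.fst_neg, Prod.smul_fst, smul_smul]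
    rw [div_mul_cancel₀ _ hε.ne']
  · rw [← hAx]
    have h1 : -(A x).2 = (-(‖B x‖ • x)).2 := by rw [← hBx]
    have h2 : (A x).2 = ‖B x‖ * x.2 := by
      have : -(A x).2 = -(‖B x‖ * x.2) := by simpa using h1
      linarith
    rw [h2]
    simp only [Prod.smul_snd, smul_eq_mul]
    field_simp

end Pool.Agent.K4H52.Brun
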