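import Mathlib
import Pool.Agent.K4H52.Brun.Topo

open Metric Set Filter Topology

namespace Pool.Agent.K4H52.Brun

/-- block sum of squares -/
noncomputable def sq {n : ℕ} (A : ℕ → Prop) [DecidablePred A] (x : EuclideanSpace ℝ (Fin n)) : ℝ :=
  ∑ p : Fin n, if A (p : ℕ) then x p ^ 2 else 0

section sq
variable {n : ℕ} (A : ℕ → Prop) [DecidablePred A] (x : EuclideanSpace ℝ (Fin n))

theorem sq_nonneg' : 0 ≤ sq A x := by
  unfold sq
  refine Finset.sum_nonneg fun p _ => ?_
  split_ifs <;> positivity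

theorem sq_eq_zero' : sq A x = 0 ↔ ∀ p : Fin n, A (p : ℕ) → x p = 0 := by
  unfold sq
  rw [Finset.sum_eq_zero_iff_of_nonneg (fun p _ => by split_ifs <;> positivity)]
  constructor
  · intro h p hp
    have := h p (Finset.mem_univ _)
    rw [if_pos hp] at this
    exact pow_eq_zero_iff (two_ne_zero) |>.1 this
  · intro h p _
    split_ifs with hp
    · rw [h p hp]; norm_num
    · rfl

theorem sq_smul (t : ℝ) : sq A (t • x) = t ^ 2 * sq A x := by
  unfold sq
  rw [Finset.mul_sum]
  refine Finset.sum_congr rfl fun p _ => ?_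
  split_ifs
  · simp [mul_pow]
  · simp

theorem le_sq (p : Fin n) (hp : A (p : ℕ)) : x p ^ 2 ≤ sq A x := by
  unfold sq
  have := Finset.single_le_sum (f := fun p : Fin n => if A (p : ℕ) then x p ^ 2 else 0)
    (fun p _ => by split_ifs <;> positivity) (Finset.mem_univ p)
  simpa [hp] using this

theorem continuous_sq : Continuous (fun x : EuclideanSpace ℝ (Fin n) => sq A x) := by
  unfold sq
  refine continuous_finsetSum _ fun p _ => ?_
  split_ifs
  · fun_prop
  · fun_prop

end sq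

/-- the coordinate subspace of the first `N` coordinates -/
def Wsub (n N : ℕ) : Submodule ℝ (EuclideanSpace ℝ (Fin n)) where
  carrier := {x | ∀ p : Fin n, N ≤ (p : ℕ) → x p = 0}
  add_mem' := by
    intro a b ha hb p hp
    simp only [mem_ofPred_eq] at ha hb
    simp [ha p hp, hb p hp]
  zero_mem' := by intro p _; simp
  smul_mem' := by
    intro c x hx p hp
    simp only [mem_ofPred_eq] at hx
    simp [hx p hp]

section core
variable {n i N : ℕ}

/-- `A`-block. -/
noncomputable def al (i : ℕ) (x : EuclideanSpace ℝ (Fin n)) : ℝ := sq (fun p => p < i) x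
/-- `B`-block. -/
noncomputable def be (i N : ℕ) (x : EuclideanSpace ℝ (Fin n)) : ℝ := sq (fun p => i ≤ p ∧ p < N) x
/-- `B`-block without its first coordinate. -/
noncomputable def bp (i N : ℕ) (x : EuclideanSpace ℝ (Fin n)) : ℝ := sq (fun p => i < p ∧ p < N) x
/-- `C`-block. -/
noncomputable def ga (N : ℕ) (x : EuclideanSpace ℝ (Fin n)) : ℝ := sq (fun p => N ≤ p) x

theorem be_eq (hiN : i < N) (hN : N ≤ n) (x : EuclideanSpace ℝ (Fin n)) :
    be i N x = x ⟨i, by omega⟩ ^ 2 + bp i N x := by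
  unfold be bp sq
  rw [← Finset.add_sum_erase _ _ (Finset.mem_univ (⟨i, by omega⟩ : Fin n)),
    ← Finset.add_sum_erase (a := (⟨i, by omega⟩ : Fin n)) _
      (fun p : Fin n => if i < (p : ℕ) ∧ (p : ℕ) < N then x p ^ 2 else 0) (Finset.mem_univ _)]
  simp only [le_refl, true_and, hiN, if_true, lt_irrefl, false_and, if_false, zero_add]
  congr 1
  refine Finset.sum_congr rfl fun p hp => ?_
  have hpi : (p : ℕ) ≠ i := by
    intro h
    apply (Finset.mem_erase.1 hp).1
    ext; exact h
  have : (i ≤ (p : ℕ) ∧ (p : ℕ) < N) ↔ (i < (p : ℕ) ∧ (p : ℕ) < N) := by omega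
  simp only [this]

theorem norm_sq_W (hiN : i < N) (w : Wsub n N) :
    ‖w‖ ^ 2 = al i (w : EuclideanSpace ℝ (Fin n)) + be i N (w : EuclideanSpace ℝ (Fin n)) := by
  have h0 : ‖w‖ = ‖(w : EuclideanSpace ℝ (Fin n))‖ := rfl
  rw [h0, EuclideanSpace.norm_sq_eq]
  unfold al be sq
  rw [← Finset.sum_add_distrib]
  refine Finset.sum_congr rfl fun p _ => ?_
  rw [Real.norm_eq_abs, sq_abs]
  by_cases h1 : (p : ℕ) < i
  · have h2 : ¬ (i ≤ (p : ℕ) ∧ (p : ℕ) < N) := by omega
    simp [h1]
  · by_cases h2 : (p : ℕ) < N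
    · have h3 : i ≤ (p : ℕ) := by omega
      simp [h1, h2, h3]
    · have h3 : (w : EuclideanSpace ℝ (Fin n)) p = 0 := w.2 p (by omega)
      rw [h3]
      simp

theorem ga_W (w : Wsub n N) : ga N (w : EuclideanSpace ℝ (Fin n)) = 0 := by
  unfold ga
  rw [sq_eq_zero']
  intro p hp
  exact w.2 p hp

end core

end Pool.Agent.K4H52.Brun
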