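import Mathlib
import Pool.Agent.K4H52.Brun.Core

open Metric Set Filter Topology

namespace Pool.Agent.K4H52.Brun

section core
variable {n i N : ℕ}

/-- the function whose vanishing cuts out `K₃` in `B = 0` -/
noncomputable def zz (i N : ℕ) (x : EuclideanSpace ℝ (Fin n)) : ℝ :=
  al i x + 4 / 49 * be i N x + ga N x / 16 - 1

/-- the function whose vanishing cuts out `K₂` in `A = 0` -/
noncomputable def yy (i N : ℕ) (x : EuclideanSpace ℝ (Fin n)) : ℝ := 9 - be i N x - ga N x

theorem continuous_al : Continuous (fun x : EuclideanSpace ℝ (Fin n) => al i x) := continuous_sq _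
theorem continuous_be : Continuous (fun x : EuclideanSpace ℝ (Fin n) => be i N x) := continuous_sq _
theorem continuous_bp : Continuous (fun x : EuclideanSpace ℝ (Fin n) => bp i N x) := continuous_sq _
theorem continuous_ga : Continuous (fun x : EuclideanSpace ℝ (Fin n) => ga N x) := continuous_sq _
theorem continuous_zz : Continuous (fun x : EuclideanSpace ℝ (Fin n) => zz i N x) := by
  unfold zz
  have h1 := continuous_al (n := n) (i := i)
  have h2 := continuous_be (n := n) (i := i) (N := N)
  have h3 := continuous_ga (n := n) (N := N)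
  fun_prop
theorem continuous_yy : Continuous (fun x : EuclideanSpace ℝ (Fin n) => yy i N x) := by
  unfold yy
  have h2 := continuous_be (n := n) (i := i) (N := N)
  have h3 := continuous_ga (n := n) (N := N)
  fun_prop

theorem al_nonneg (x : EuclideanSpace ℝ (Fin n)) : 0 ≤ al i x := sq_nonneg' _ _
theorem be_nonneg (x : EuclideanSpace ℝ (Fin n)) : 0 ≤ be i N x := sq_nonneg' _ _
theorem bp_nonneg (x : EuclideanSpace ℝ (Fin n)) : 0 ≤ bp i N x := sq_nonneg' _ _
theorem ga_nonneg (x : EuclideanSpace ℝ (Fin n)) : 0 ≤ ga N x := sq_nonneg' _ _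

/-- radial retraction onto the unit ball -/
noncomputable def ret (w : Wsub n N) : Wsub n N := (max 1 ‖w‖)⁻¹ • w

theorem continuous_ret : Continuous (ret : Wsub n N → Wsub n N) := by
  unfold ret
  have h : Continuous (fun w : Wsub n N => (max 1 ‖w‖)⁻¹) := by
    refine Continuous.inv₀ (by fun_prop) fun w => ?_
    have : (1 : ℝ) ≤ max 1 ‖w‖ := le_max_left _ _
    linarith
  fun_prop

variable (P : Wsub n N → EuclideanSpace ℝ (Fin n))

/-- the second map: equal to `P` on the unit ball and to `w ↦ 2 w` outside -/
noncomputable def HH (w : Wsub n N) : EuclideanSpace ℝ (Fin n) :=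
  P w + (2 : ℝ) • ((w : EuclideanSpace ℝ (Fin n)) - (ret w : EuclideanSpace ℝ (Fin n)))

theorem continuous_HH (hP : Continuous P) : Continuous (HH P) := by
  have h : Continuous (fun w : Wsub n N => (ret w : EuclideanSpace ℝ (Fin n))) :=
    continuous_subtype_val.comp continuous_ret
  exact hP.add (((continuous_subtype_val).sub h).const_smul (2 : ℝ))

theorem HH_small (w : Wsub n N) (hw : ‖w‖ ≤ 1) : HH P w = P w := by
  unfold HH ret
  rw [max_eq_left hw]
  simp

theorem HH_large (hb : ∀ w : Wsub n N, 1 ≤ ‖w‖ → P w = (2 / ‖w‖) • (w : EuclideanSpace ℝ (Fin n)))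
    (w : Wsub n N) (hw : 1 ≤ ‖w‖) : HH P w = (2 : ℝ) • (w : EuclideanSpace ℝ (Fin n)) := by
  unfold HH ret
  rw [max_eq_right hw, hb w hw]
  rw [Submodule.coe_smul, smul_sub, smul_smul, div_eq_mul_inv]
  abel

/-- first component data -/
noncomputable def m1 (i : ℕ) (w : Wsub n N) : ℝ := max 0 (yy i N (P w))
/-- second component data -/
noncomputable def m2 (i' : Fin n) (u : Wsub n N) : ℝ := max 0 (HH P u i')
/-- first norm -/
noncomputable def n2 (i : ℕ) (w : Wsub n N) : ℝ := al i (P w) + |yy i N (P w)|
/-- second norm -/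
noncomputable def n3 (i : ℕ) (i' : Fin n) (u : Wsub n N) : ℝ :=
  |zz i N (HH P u)| + bp i N (HH P u) + |HH P u i'|

/-- underlying vector of the first component -/
noncomputable def Q1v (i : ℕ) (i' : Fin n) (w u : Wsub n N) : EuclideanSpace ℝ (Fin n) :=
  WithLp.toLp 2 (fun p : Fin n => if (p : ℕ) < i then m2 P i' u * P w p
    else if (p : ℕ) = i then m1 P i w * zz i N (HH P u)
    else if (p : ℕ) < N then m1 P i w * HH P u p else 0)

/-- first component -/
noncomputable def Q1 (hiN : i < N) (i' : Fin n) (w u : Wsub n N) : Wsub n N :=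
  ⟨Q1v P i i' w u, by
    intro p hp
    have h1 : ¬ (p : ℕ) < i := by omega
    have h2 : (p : ℕ) ≠ i := by omega
    have h3 : ¬ (p : ℕ) < N := by omega
    simp [Q1v, h1, h2, h3]⟩

/-- second component -/
noncomputable def Q2 (i : ℕ) (i' : Fin n) (w u : Wsub n N) : ℝ :=
  n2 P i w * n3 P i i' u - 2 * (m1 P i w * m2 P i' u)

theorem continuous_m1 (hP : Continuous P) : Continuous (m1 P i) := by
  unfold m1
  have := continuous_yy (n := n) (i := i) (N := N)
  exact continuous_const.max (this.comp hP)

theorem continuous_coordHH (hP : Continuous P) (p : Fin n) : Continuous (fun u => HH P u p) := by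
  have h := continuous_HH P hP
  fun_prop

theorem continuous_m2 (hP : Continuous P) (i' : Fin n) : Continuous (m2 P i') := by
  unfold m2
  exact continuous_const.max (continuous_coordHH P hP i')

theorem continuous_n2 (hP : Continuous P) : Continuous (n2 P i) := by
  unfold n2
  exact ((continuous_al (n := n) (i := i)).comp hP).add
    ((continuous_yy (n := n) (i := i) (N := N)).comp hP).abs

theorem continuous_n3 (hP : Continuous P) (i' : Fin n) : Continuous (n3 P i i') := by
  unfold n3
  have h := continuous_HH P hP
  exact (((continuous_zz (n := n) (i := i) (N := N)).comp h).abs.add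
    ((continuous_bp (n := n) (i := i) (N := N)).comp h)).add (continuous_coordHH P hP i').abs

theorem continuous_Q1 (hP : Continuous P) (hiN : i < N) (i' : Fin n)
    {X : Type*} [TopologicalSpace X] (f g : X → Wsub n N) (hf : Continuous f) (hg : Continuous g) :
    Continuous (fun x => Q1 P hiN i' (f x) (g x)) := by
  unfold Q1
  refine Continuous.subtype_mk ?_ _
  unfold Q1v
  refine (PiLp.continuous_toLp 2 _).comp (continuous_pi fun p => ?_)
  have h1 := (continuous_m2 P hP i').comp hg
  have h2 := (continuous_m1 (i := i) P hP).comp hf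
  have h3 := ((continuous_zz (n := n) (i := i) (N := N)).comp (continuous_HH P hP)).comp hg
  have h4 := (continuous_coordHH P hP p).comp hg
  have h5 := hP.comp hf
  have h6 : Continuous (fun x => P (f x) p) := by fun_prop
  split_ifs
  · exact h1.mul h6
  · exact h2.mul h3
  · exact h2.mul h4
  · exact continuous_const

theorem continuous_Q2 (hP : Continuous P) (i' : Fin n)
    {X : Type*} [TopologicalSpace X] (f g : X → Wsub n N) (hf : Continuous f) (hg : Continuous g) :
    Continuous (fun x => Q2 P i i' (f x) (g x)) := by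
  unfold Q2
  have h1 := (continuous_m2 P hP i').comp hg
  have h2 := (continuous_m1 (i := i) P hP).comp hf
  have h3 := (continuous_n2 (i := i) P hP).comp hf
  have h4 := (continuous_n3 (i := i) P hP i').comp hg
  exact (h3.mul h4).sub (continuous_const.mul (h2.mul h1))

end core

end Pool.Agent.K4H52.Brun
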