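import Mathlib
import Pool.Agent.K4H52.Brun.Core2

open Metric Set Filter Topology

namespace Pool.Agent.K4H52.Brun

section core
variable {n i N : ℕ} (P : Wsub n N → EuclideanSpace ℝ (Fin n))

theorem al_smul (t : ℝ) (x : EuclideanSpace ℝ (Fin n)) : al i (t • x) = t ^ 2 * al i x := sq_smul _ _ _
theorem be_smul (t : ℝ) (x : EuclideanSpace ℝ (Fin n)) : be i N (t • x) = t ^ 2 * be i N x :=
  sq_smul _ _ _
theorem bp_smul (t : ℝ) (x : EuclideanSpace ℝ (Fin n)) : bp i N (t • x) = t ^ 2 * bp i N x :=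
  sq_smul _ _ _
theorem ga_smul (t : ℝ) (x : EuclideanSpace ℝ (Fin n)) : ga N (t • x) = t ^ 2 * ga N x :=
  sq_smul _ _ _

/-- outside the unit ball the two maps are explicit -/
def Bd (P : Wsub n N → EuclideanSpace ℝ (Fin n)) : Prop :=
  ∀ w : Wsub n N, 1 ≤ ‖w‖ → P w = (2 / ‖w‖) • (w : EuclideanSpace ℝ (Fin n))

/-- `P` misses `K₂` -/
def Miss2 (i : ℕ) (P : Wsub n N → EuclideanSpace ℝ (Fin n)) : Prop :=
  ∀ w, al i (P w) = 0 → yy i N (P w) = 0 → False

/-- `P` misses `K₃` -/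
def Miss3 (i : ℕ) (P : Wsub n N → EuclideanSpace ℝ (Fin n)) : Prop :=
  ∀ w, be i N (P w) = 0 → al i (P w) + ga N (P w) / 16 = 1 → False

theorem HH_miss3 (hiN : i < N) (hb : Bd P) (h3 : Miss3 i P) (u : Wsub n N)
    (h : be i N (HH P u) = 0) (h' : al i (HH P u) + ga N (HH P u) / 16 = 1) : False := by
  rcases le_total ‖u‖ 1 with hu | hu
  · rw [HH_small P u hu] at h h'
    exact h3 u h h'
  · rw [HH_large P hb u hu] at h h'
    rw [be_smul] at h
    rw [al_smul, ga_smul, ga_W] at h'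
    have hn := norm_sq_W hiN u
    nlinarith

theorem n2_pos (h2 : Miss2 i P) (w : Wsub n N) : 0 < n2 P i w := by
  unfold n2
  have ha := al_nonneg (i := i) (P w)
  have hy := abs_nonneg (yy i N (P w))
  rcases (add_nonneg ha hy).lt_or_eq with h | h
  · exact h
  · exfalso
    have h0 : al i (P w) = 0 := by linarith
    have h1 : |yy i N (P w)| = 0 := by linarith
    exact h2 w h0 (abs_eq_zero.1 h1)

theorem n3_pos (hiN : i < N) (hN : N ≤ n) (hb : Bd P) (h3 : Miss3 i P) (u : Wsub n N) :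
    0 < n3 P i ⟨i, by omega⟩ u := by
  unfold n3
  have hz := abs_nonneg (zz i N (HH P u))
  have hbp := bp_nonneg (i := i) (N := N) (HH P u)
  have hx := abs_nonneg (HH P u ⟨i, by omega⟩)
  rcases (add_nonneg (add_nonneg hz hbp) hx).lt_or_eq with h | h
  · exact h
  · exfalso
    have e1 : |zz i N (HH P u)| = 0 := by linarith
    have e2 : bp i N (HH P u) = 0 := by linarith
    have e3 : |HH P u ⟨i, by omega⟩| = 0 := by linarith
    rw [abs_eq_zero] at e1 e3
    have hbe : be i N (HH P u) = 0 := by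
      rw [be_eq hiN hN, e3, e2]; norm_num
    apply HH_miss3 P hiN hb h3 u hbe
    unfold zz at e1
    rw [hbe] at e1
    linarith

/-- the configuration where the pair hits the bad direction -/
def Hit (i : ℕ) (i' : Fin n) (P : Wsub n N → EuclideanSpace ℝ (Fin n)) (w u : Wsub n N) : Prop :=
  al i (P w) = 0 ∧ 0 < yy i N (P w) ∧ zz i N (HH P u) = 0 ∧ bp i N (HH P u) = 0 ∧ 0 < HH P u i'

theorem hit_of (hiN : i < N) (hN : N ≤ n) (hb : Bd P) (h2 : Miss2 i P) (h3 : Miss3 i P)
    (w u : Wsub n N) (hq1 : Q1 P hiN ⟨i, by omega⟩ w u = 0) (hq2 : Q2 P i ⟨i, by omega⟩ w u ≤ 0) :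
    Hit i ⟨i, by omega⟩ P w u ∧ Q2 P i ⟨i, by omega⟩ w u < 0 := by
  set i' : Fin n := ⟨i, by omega⟩ with hi'
  have hp : 0 < n2 P i w * n3 P i i' u := mul_pos (n2_pos P h2 w) (n3_pos P hiN hN hb h3 u)
  have hm : 0 < m1 P i w * m2 P i' u := by
    unfold Q2 at hq2; linarith
  have hm1 : 0 ≤ m1 P i w := le_max_left _ _
  have hm2 : 0 ≤ m2 P i' u := le_max_left _ _
  have hm1' : 0 < m1 P i w := lt_of_le_of_ne hm1 (by rintro h; rw [← h] at hm; simp at hm)
  have hm2' : 0 < m2 P i' u := lt_of_le_of_ne hm2 (by rintro h; rw [← h] at hm; simp at hm)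
  have hy : 0 < yy i N (P w) := by
    unfold m1 at hm1'
    rcases lt_max_iff.1 hm1' with h | h
    · exact absurd h (lt_irrefl _)
    · exact h
  have hx : 0 < HH P u i' := by
    unfold m2 at hm2'
    rcases lt_max_iff.1 hm2' with h | h
    · exact absurd h (lt_irrefl _)
    · exact h
  have hv : ∀ p : Fin n, Q1v P i i' w u p = 0 := by
    intro p
    have : (Q1 P hiN i' w u : EuclideanSpace ℝ (Fin n)) = 0 := by rw [hq1]; rfl
    have h := congrArg (fun x : EuclideanSpace ℝ (Fin n) => x p) this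
    simpa [Q1] using h
  have hal : al i (P w) = 0 := by
    unfold al
    rw [sq_eq_zero']
    intro p hp
    have h := hv p
    simp only [Q1v, if_pos hp] at h
    exact (mul_eq_zero.1 h).resolve_left hm2'.ne'
  have hz : zz i N (HH P u) = 0 := by
    have h := hv i'
    have e1 : ¬ ((i' : Fin n) : ℕ) < i := by simp [hi']
    have e2 : ((i' : Fin n) : ℕ) = i := by simp [hi']
    simp only [Q1v, if_neg e1, if_pos e2] at h
    exact (mul_eq_zero.1 h).resolve_left hm1'.ne'
  have hbp : bp i N (HH P u) = 0 := by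
    unfold bp
    rw [sq_eq_zero']
    intro p hp
    have h := hv p
    have e1 : ¬ (p : ℕ) < i := by omega
    have e2 : (p : ℕ) ≠ i := by omega
    simp only [Q1v, if_neg e1, if_neg e2, if_pos hp.2] at h
    exact (mul_eq_zero.1 h).resolve_left hm1'.ne'
  refine ⟨⟨hal, hy, hz, hbp, hx⟩, ?_⟩
  unfold Q2 n2 n3 m1 m2
  rw [hal, hz, hbp, abs_of_pos hy, abs_of_pos hx, max_eq_right hy.le, max_eq_right hx.le, abs_zero]
  have := mul_pos hy hx
  linarith

/-- the special point -/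
noncomputable def w0 (hiN : i < N) (hN : N ≤ n) : Wsub n N :=
  ⟨EuclideanSpace.single ⟨i, by omega⟩ (7 / 4), by
    intro p hp
    have : p ≠ ⟨i, by omega⟩ := by
      intro h; rw [h] at hp; simp at hp; omega
    simp [this]⟩

theorem eq_w0 (hiN : i < N) (hN : N ≤ n) (w : Wsub n N)
    (h1 : al i (w : EuclideanSpace ℝ (Fin n)) = 0) (h2 : bp i N (w : EuclideanSpace ℝ (Fin n)) = 0)
    (h3 : (w : EuclideanSpace ℝ (Fin n)) ⟨i, by omega⟩ = 7 / 4) : w = w0 hiN hN := by
  apply Subtype.ext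
  ext p
  unfold w0
  simp only [PiLp.single_apply]
  by_cases hp : (p : ℕ) < i
  · have : p ≠ ⟨i, by omega⟩ := by
      intro h; rw [h] at hp; simp at hp
    rw [if_neg this]
    unfold al at h1
    exact (sq_eq_zero' _ _).1 h1 p hp
  · by_cases hp2 : (p : ℕ) = i
    · have : p = ⟨i, by omega⟩ := by ext; exact hp2
      rw [if_pos this, this]; exact h3
    · have hne : p ≠ ⟨i, by omega⟩ := by
        intro h; rw [h] at hp2; simp at hp2
      rw [if_neg hne]
      by_cases hp3 : (p : ℕ) < N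
      · unfold bp at h2
        exact (sq_eq_zero' _ _).1 h2 p ⟨by omega, hp3⟩
      · exact w.2 p (by omega)

theorem hit_diag (hiN : i < N) (hN : N ≤ n) (hb : Bd P) (w : Wsub n N)
    (h : Hit i ⟨i, by omega⟩ P w w) : w = w0 hiN hN := by
  obtain ⟨ha, hy, hz, hbp, hx⟩ := h
  rcases le_total ‖w‖ 1 with hw | hw
  · exfalso
    rw [HH_small P w hw] at hz hbp hx
    unfold yy at hy
    unfold zz at hz
    have hg := ga_nonneg (N := N) (P w)
    linarith
  · have hwpos : 0 < ‖w‖ := by linarith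
    rw [hb w hw, al_smul] at ha
    have ha' : al i (w : EuclideanSpace ℝ (Fin n)) = 0 := by
      rcases mul_eq_zero.1 ha with h | h
      · exfalso
        have : 0 < (2 / ‖w‖) ^ 2 := by positivity
        linarith
      · exact h
    rw [HH_large P hb w hw] at hz hbp hx
    rw [bp_smul] at hbp
    have hbp' : bp i N (w : EuclideanSpace ℝ (Fin n)) = 0 := by linarith
    unfold zz at hz
    rw [al_smul, be_smul, ga_smul, ga_W, ha', be_eq hiN hN, hbp'] at hz
    have hx' : 0 < (w : EuclideanSpace ℝ (Fin n)) ⟨i, by omega⟩ := by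
      have : 0 < 2 * (w : EuclideanSpace ℝ (Fin n)) ⟨i, by omega⟩ := by simpa using hx
      linarith
    apply eq_w0 hiN hN w ha' hbp'
    nlinarith

theorem norm_coord_le (w : Wsub n N) (p : Fin n) : |(w : EuclideanSpace ℝ (Fin n)) p| ≤ ‖w‖ := by
  have h := PiLp.norm_apply_le (w : EuclideanSpace ℝ (Fin n)) p
  simpa using h

/-- unit vector in the first direction -/
noncomputable def e0 (hi : 1 ≤ i) (hiN : i < N) (hN : N ≤ n) : Wsub n N :=
  ⟨EuclideanSpace.single ⟨0, by omega⟩ 1, by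
    intro p hp
    have : p ≠ ⟨0, by omega⟩ := by
      intro h; rw [h] at hp; simp at hp; omega
    simp [this]⟩

theorem norm_e0 (hi : 1 ≤ i) (hiN : i < N) (hN : N ≤ n) : ‖e0 hi hiN hN‖ = 1 := by
  show ‖(EuclideanSpace.single (⟨0, by omega⟩ : Fin n) (1 : ℝ))‖ = 1
  simp

theorem norm_w0 (hiN : i < N) (hN : N ≤ n) : ‖w0 hiN hN‖ = 7 / 4 := by
  show ‖(EuclideanSpace.single (⟨i, by omega⟩ : Fin n) (7 / 4 : ℝ))‖ = 7 / 4
  simp

theorem hit_bound (hi : 1 ≤ i) (hiN : i < N) (hN : N ≤ n) (hb : Bd P) (w : Wsub n N) (s : ℝ)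
    (h : Hit i ⟨i, by omega⟩ P w (w - s • e0 hi hiN hN)) : s ≤ 2 ∧ ‖w‖ ≤ 2 + |s| := by
  obtain ⟨ha, hy, hz, hbp, hx⟩ := h
  set u := w - s • e0 hi hiN hN with hu
  have hw0 : |(w : EuclideanSpace ℝ (Fin n)) ⟨0, by omega⟩| ≤ 1 := by
    rcases le_total ‖w‖ 1 with hw | hw
    · exact (norm_coord_le w _).trans hw
    · rw [hb w hw, al_smul] at ha
      have ha' : al i (w : EuclideanSpace ℝ (Fin n)) = 0 := by
        rcases mul_eq_zero.1 ha with h | h
        · exfalso
          have : 0 < (2 / ‖w‖) ^ 2 := by positivity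
          linarith
        · exact h
      have := (sq_eq_zero' _ _).1 ha' ⟨0, by omega⟩ (by simp; omega)
      rw [this]; simp
  have huu : ‖u‖ ≤ 2 ∧ |(u : EuclideanSpace ℝ (Fin n)) ⟨0, by omega⟩| ≤ 1 := by
    rcases le_total ‖u‖ 1 with hun | hun
    · exact ⟨by linarith, (norm_coord_le u _).trans hun⟩
    · rw [HH_large P hb u hun] at hz
      unfold zz at hz
      rw [al_smul, be_smul, ga_smul, ga_W] at hz
      have hal := al_nonneg (i := i) (u : EuclideanSpace ℝ (Fin n))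
      have hbe := be_nonneg (i := i) (N := N) (u : EuclideanSpace ℝ (Fin n))
      have hn := norm_sq_W hiN u
      have h0 : (u : EuclideanSpace ℝ (Fin n)) ⟨0, by omega⟩ ^ 2 ≤ al i (u : EuclideanSpace ℝ (Fin n)) :=
        le_sq _ _ ⟨0, by omega⟩ (by simp; omega)
      constructor
      · nlinarith [norm_nonneg u]
      · rw [abs_le_one_iff_mul_self_le_one]
        nlinarith
  have hcoord : (u : EuclideanSpace ℝ (Fin n)) ⟨0, by omega⟩ =
      (w : EuclideanSpace ℝ (Fin n)) ⟨0, by omega⟩ - s := by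
    rw [hu]
    simp [e0]
  constructor
  · have h1 := (abs_le.1 hw0).2
    have h2 := (abs_le.1 huu.2).1
    linarith
  · have : w = u + s • e0 hi hiN hN := by rw [hu]; abel
    calc ‖w‖ = ‖u + s • e0 hi hiN hN‖ := by rw [← this]
      _ ≤ ‖u‖ + ‖s • e0 hi hiN hN‖ := norm_add_le _ _
      _ = ‖u‖ + |s| := by rw [norm_smul, norm_e0, mul_one, Real.norm_eq_abs]
      _ ≤ 2 + |s| := by linarith [huu.1]

end core

end Pool.Agent.K4H52.Brun
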