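import Mathlib
import Pool.Agent.K4H52.Brun.Core3

open Metric Set Filter Topology

namespace Pool.Agent.K4H52.Brun

section core
variable {n i N : ℕ} (P : Wsub n N → EuclideanSpace ℝ (Fin n))

/-- explicit analysis near the special point -/
theorem near_w0 (hiN : i < N) (hN : N ≤ n) (hb : Bd P) (w : Wsub n N) (A B : ℝ)
    (hA : 0 ≤ A) (hB : 0 ≤ B) (hAB : 0 < A + B) (hw : ‖w - w0 hiN hN‖ < 1 / 4)
    (h : A • Q1 P hiN ⟨i, by omega⟩ w w + B • (w - w0 hiN hN) = 0) : w = w0 hiN hN := by
  set i' : Fin n := ⟨i, by omega⟩ with hi'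
  have hn0 := norm_w0 hiN hN
  have hwn : 1 ≤ ‖w‖ := by
    have : ‖w0 hiN hN‖ ≤ ‖w‖ + ‖w - w0 hiN hN‖ := by
      have := norm_sub_le w (w - w0 hiN hN)
      simpa using this
    linarith
  have hwpos : 0 < ‖w‖ := by linarith
  have hcoord0 : ∀ p : Fin n, (w0 hiN hN : EuclideanSpace ℝ (Fin n)) p = if p = i' then 7 / 4 else 0 := by
    intro p
    unfold w0
    simp only [PiLp.single_apply, hi']
  have hwi : 3 / 2 < (w : EuclideanSpace ℝ (Fin n)) i' := by
    have h1 := (norm_coord_le (w - w0 hiN hN) i').trans_lt hw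
    have h2 : ((w - w0 hiN hN : Wsub n N) : EuclideanSpace ℝ (Fin n)) i' =
        (w : EuclideanSpace ℝ (Fin n)) i' - 7 / 4 := by
      rw [Submodule.coe_sub, PiLp.sub_apply, hcoord0]; simp
    rw [h2] at h1
    linarith [(abs_lt.1 h1).1]
  have hH : HH P w = (2 : ℝ) • (w : EuclideanSpace ℝ (Fin n)) := HH_large P hb w hwn
  have hPw : P w = (2 / ‖w‖) • (w : EuclideanSpace ℝ (Fin n)) := hb w hwn
  have hm2 : 0 < m2 P i' w := by
    unfold m2
    rw [hH]
    apply lt_max_of_lt_right
    have : ((2 : ℝ) • (w : EuclideanSpace ℝ (Fin n))) i' = 2 * (w : EuclideanSpace ℝ (Fin n)) i' := by simp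
    rw [this]; linarith
  have hm1 : 0 < m1 P i w := by
    unfold m1
    apply lt_max_of_lt_right
    unfold yy
    rw [hPw, be_smul, ga_smul, ga_W]
    have hn := norm_sq_W hiN w
    have hal := al_nonneg (i := i) (w : EuclideanSpace ℝ (Fin n))
    have : (2 / ‖w‖) ^ 2 * be i N (w : EuclideanSpace ℝ (Fin n)) ≤ 4 := by
      rw [div_pow, div_mul_eq_mul_div, div_le_iff₀ (by positivity)]
      nlinarith
    linarith
  have hv : ∀ p : Fin n, A * Q1v P i i' w w p + B * ((w : EuclideanSpace ℝ (Fin n)) p -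
      (if p = i' then 7 / 4 else 0)) = 0 := by
    intro p
    have h1 : ((A • Q1 P hiN i' w w + B • (w - w0 hiN hN) : Wsub n N) : EuclideanSpace ℝ (Fin n)) = 0 := by
      rw [h]; rfl
    have h2 := congrArg (fun x : EuclideanSpace ℝ (Fin n) => x p) h1
    simp only [Submodule.coe_add, Submodule.coe_smul, Submodule.coe_sub, PiLp.add_apply,
      PiLp.smul_apply, PiLp.sub_apply, smul_eq_mul, PiLp.zero_apply, hcoord0] at h2
    simpa [Q1] using h2
  have hzero : ∀ p : Fin n, (p : ℕ) ≠ i → (w : EuclideanSpace ℝ (Fin n)) p = 0 := by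
    intro p hp
    have hpi : p ≠ i' := by
      intro h; apply hp; rw [h]
    by_cases hp1 : (p : ℕ) < i
    · have h1 := hv p
      rw [if_neg hpi] at h1
      simp only [Q1v, if_pos hp1] at h1
      rw [hPw] at h1
      have h2 : (A * (m2 P i' w * (2 / ‖w‖)) + B) * (w : EuclideanSpace ℝ (Fin n)) p = 0 := by
        have : A * (m2 P i' w * ((2 / ‖w‖) * (w : EuclideanSpace ℝ (Fin n)) p)) +
          B * ((w : EuclideanSpace ℝ (Fin n)) p - 0) = 0 := by simpa using h1
        linarith
      have hpos : 0 < A * (m2 P i' w * (2 / ‖w‖)) + B := by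
        have h3 : 0 < m2 P i' w * (2 / ‖w‖) := by positivity
        rcases hA.lt_or_eq with hA' | hA'
        · have := mul_pos hA' h3; linarith
        · rw [← hA']; linarith
      exact (mul_eq_zero.1 h2).resolve_left hpos.ne'
    · by_cases hp3 : (p : ℕ) < N
      · have h1 := hv p
        rw [if_neg hpi] at h1
        simp only [Q1v, if_neg hp1, if_neg hp, if_pos hp3] at h1
        rw [hH] at h1
        have h2 : (A * (m1 P i w * 2) + B) * (w : EuclideanSpace ℝ (Fin n)) p = 0 := by
          have : A * (m1 P i w * (2 * (w : EuclideanSpace ℝ (Fin n)) p)) +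
            B * ((w : EuclideanSpace ℝ (Fin n)) p - 0) = 0 := by simpa using h1
          linarith
        have hpos : 0 < A * (m1 P i w * 2) + B := by
          have h3 : 0 < m1 P i w * 2 := by positivity
          rcases hA.lt_or_eq with hA' | hA'
          · have := mul_pos hA' h3; linarith
          · rw [← hA']; linarith
        exact (mul_eq_zero.1 h2).resolve_left hpos.ne'
      · exact w.2 p (by omega)
  have hal : al i (w : EuclideanSpace ℝ (Fin n)) = 0 := by
    unfold al; rw [sq_eq_zero']
    intro p hp; exact hzero p (by omega)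
  have hbp : bp i N (w : EuclideanSpace ℝ (Fin n)) = 0 := by
    unfold bp; rw [sq_eq_zero']
    intro p hp; exact hzero p (by omega)
  apply eq_w0 hiN hN w hal hbp
  have h1 := hv i'
  have e1 : ¬ ((i' : Fin n) : ℕ) < i := by simp [hi']
  have e2 : ((i' : Fin n) : ℕ) = i := by simp [hi']
  simp only [Q1v, if_neg e1, if_pos e2, if_true] at h1
  have hz : zz i N (HH P w) = 16 / 49 * (((w : EuclideanSpace ℝ (Fin n)) i' - 7 / 4) *
      ((w : EuclideanSpace ℝ (Fin n)) i' + 7 / 4)) := by
    rw [hH]; unfold zz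
    rw [al_smul, be_smul, ga_smul, ga_W, hal, be_eq hiN hN, hbp]
    ring
  rw [hz] at h1
  have h2 : (A * (m1 P i w * (16 / 49 * ((w : EuclideanSpace ℝ (Fin n)) i' + 7 / 4))) + B) *
      ((w : EuclideanSpace ℝ (Fin n)) i' - 7 / 4) = 0 := by linarith
  have hpos : 0 < A * (m1 P i w * (16 / 49 * ((w : EuclideanSpace ℝ (Fin n)) i' + 7 / 4))) + B := by
    have h3 : 0 < m1 P i w * (16 / 49 * ((w : EuclideanSpace ℝ (Fin n)) i' + 7 / 4)) := by
      have : 0 < (w : EuclideanSpace ℝ (Fin n)) i' + 7 / 4 := by linarith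
      positivity
    rcases hA.lt_or_eq with hA' | hA'
    · have := mul_pos hA' h3; linarith
    · rw [← hA']; linarith
  have := (mul_eq_zero.1 h2).resolve_left hpos.ne'
  linarith

theorem Q2_w0 (hiN : i < N) (hN : N ≤ n) (hb : Bd P) :
    Q2 P i ⟨i, by omega⟩ (w0 hiN hN) (w0 hiN hN) < 0 := by
  set i' : Fin n := ⟨i, by omega⟩ with hi'
  have hn0 := norm_w0 hiN hN
  have hcoord0 : ∀ p : Fin n, (w0 hiN hN : EuclideanSpace ℝ (Fin n)) p = if p = i' then 7 / 4 else 0 := by
    intro p
    unfold w0
    simp only [PiLp.single_apply, hi']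
  have hH : HH P (w0 hiN hN) = (2 : ℝ) • (w0 hiN hN : EuclideanSpace ℝ (Fin n)) :=
    HH_large P hb _ (by rw [hn0]; norm_num)
  have hPw : P (w0 hiN hN) = (2 / (7 / 4) : ℝ) • (w0 hiN hN : EuclideanSpace ℝ (Fin n)) := by
    rw [hb _ (by rw [hn0]; norm_num), hn0]
  have hal : al i (w0 hiN hN : EuclideanSpace ℝ (Fin n)) = 0 := by
    unfold al; rw [sq_eq_zero']
    intro p hp
    rw [hcoord0, if_neg]
    intro h; rw [h] at hp; simp [hi'] at hp
  have hbp : bp i N (w0 hiN hN : EuclideanSpace ℝ (Fin n)) = 0 := by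
    unfold bp; rw [sq_eq_zero']
    intro p hp
    rw [hcoord0, if_neg]
    intro h; rw [h] at hp; simp [hi'] at hp
  have hbe : be i N (w0 hiN hN : EuclideanSpace ℝ (Fin n)) = 49 / 16 := by
    rw [be_eq hiN hN, hbp, hcoord0]; simp [hi']; norm_num
  have hy : yy i N (P (w0 hiN hN)) = 5 := by
    unfold yy; rw [hPw, be_smul, ga_smul, ga_W, hbe]; norm_num
  have hz : zz i N (HH P (w0 hiN hN)) = 0 := by
    unfold zz; rw [hH, al_smul, be_smul, ga_smul, ga_W, hbe, hal]; norm_num
  have hx : HH P (w0 hiN hN) i' = 7 / 2 := by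
    rw [hH]
    have : ((2 : ℝ) • (w0 hiN hN : EuclideanSpace ℝ (Fin n))) i' =
      2 * (w0 hiN hN : EuclideanSpace ℝ (Fin n)) i' := by simp
    rw [this, hcoord0]; norm_num
  unfold Q2 n2 n3 m1 m2
  rw [hy, hz, hx, hPw, hH, al_smul, bp_smul, hal, hbp]
  norm_num

/-- cut-off `ρ` -/
noncomputable def rr (hiN : i < N) (hN : N ≤ n) (w : Wsub n N) : ℝ := min 1 (16 * ‖w - w0 hiN hN‖ ^ 2)

/-- clamp -/
noncomputable def tt (s : ℝ) : ℝ := min 1 (max 0 (-s))

/-- the glued map -/
noncomputable def G0 (hi : 1 ≤ i) (hiN : i < N) (hN : N ≤ n) (x : Wsub n N × ℝ) : Wsub n N × ℝ :=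
  ((1 - tt x.2) • Q1 P hiN ⟨i, by omega⟩ x.1 (x.1 - (max 0 x.2) • e0 hi hiN hN) +
      (tt x.2 * (1 - rr hiN hN x.1)) • (x.1 - w0 hiN hN),
    (1 - tt x.2) * Q2 P i ⟨i, by omega⟩ x.1 (x.1 - (max 0 x.2) • e0 hi hiN hN) +
      tt x.2 * (2 * rr hiN hN x.1 - 1) + max 0 (-x.2 - 1))

theorem continuous_G0 (hP : Continuous P) (hi : 1 ≤ i) (hiN : i < N) (hN : N ≤ n) :
    Continuous (G0 P hi hiN hN) := by
  unfold G0
  have ht : Continuous (fun x : Wsub n N × ℝ => tt x.2) := by
    unfold tt; fun_prop
  have hr : Continuous (fun x : Wsub n N × ℝ => rr hiN hN x.1) := by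
    unfold rr; fun_prop
  have hf : Continuous (fun x : Wsub n N × ℝ => x.1) := continuous_fst
  have hg : Continuous (fun x : Wsub n N × ℝ => x.1 - (max 0 x.2) • e0 hi hiN hN) := by fun_prop
  have h1 := continuous_Q1 P hP hiN ⟨i, by omega⟩ _ _ hf hg
  have h2 := continuous_Q2 (i := i) P hP ⟨i, by omega⟩ _ _ hf hg
  fun_prop

theorem G0_key (hi : 1 ≤ i) (hiN : i < N) (hN : N ≤ n) (hb : Bd P) (h2 : Miss2 i P)
    (h3 : Miss3 i P) (x : Wsub n N × ℝ) (hx1 : (G0 P hi hiN hN x).1 = 0)
    (hx2 : (G0 P hi hiN hN x).2 ≤ 0) :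
    ‖x - (w0 hiN hN, -2)‖ ≤ 10 ∧ ((G0 P hi hiN hN x).2 = 0 → x = (w0 hiN hN, -2)) := by
  obtain ⟨w, s⟩ := x
  have hn0 := norm_w0 hiN hN
  have hnorm : ∀ M : ℝ, ‖w - w0 hiN hN‖ ≤ M → |s + 2| ≤ M → ‖(w, s) - (w0 hiN hN, (-2 : ℝ))‖ ≤ M := by
    intro M h1 h2
    rw [Prod.norm_def]
    apply max_le
    · exact h1
    · simpa using h2
  have hrr0 : 0 ≤ rr hiN hN w := by unfold rr; exact le_min zero_le_one (by positivity)
  have hrr1 : rr hiN hN w ≤ 1 := by unfold rr; exact min_le_left _ _
  rcases le_total 0 s with hs | hs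
  · -- s ≥ 0
    have e1 : tt s = 0 := by
      unfold tt
      rw [max_eq_left (by linarith)]; simp
    have e2 : max 0 (-s - 1) = 0 := max_eq_left (by linarith)
    have e3 : max 0 s = s := max_eq_right hs
    simp only [G0, e1, e2, e3, sub_zero, one_smul, zero_mul, zero_smul, add_zero, one_mul] at hx1 hx2 ⊢
    obtain ⟨hh, hneg⟩ := hit_of P hiN hN hb h2 h3 _ _ hx1 hx2
    obtain ⟨b1, b2⟩ := hit_bound P hi hiN hN hb w s hh
    rw [abs_of_nonneg hs] at b2
    constructor
    · apply hnorm
      · have := norm_sub_le w (w0 hiN hN)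
        linarith
      · rw [abs_of_nonneg (by linarith)]; linarith
    · intro h; linarith
  · rcases le_total (-1) s with hs1 | hs1
    · -- -1 ≤ s ≤ 0
      have e1 : tt s = -s := by
        unfold tt
        rw [max_eq_right (by linarith), min_eq_right (by linarith)]
      have e2 : max 0 (-s - 1) = 0 := max_eq_left (by linarith)
      have e3 : max 0 s = 0 := max_eq_left hs
      simp only [G0, e1, e2, e3, zero_smul, sub_zero, add_zero] at hx1 hx2 ⊢
      by_cases hw : ‖w - w0 hiN hN‖ < 1 / 4
      · have hr : rr hiN hN w < 1 := by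
          unfold rr
          apply (min_le_right _ _).trans_lt
          have := norm_nonneg (w - w0 hiN hN)
          nlinarith
        have hww := near_w0 P hiN hN hb w (1 - -s) (-s * (1 - rr hiN hN w)) (by linarith)
          (mul_nonneg (by linarith) (by linarith)) (by
            rcases hs1.lt_or_eq with h | h
            · have : 0 ≤ -s * (1 - rr hiN hN w) := mul_nonneg (by linarith) (by linarith)
              linarith
            · rw [← h]; norm_num; linarith) hw hx1
        constructor
        · apply hnorm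
          · linarith
          · rw [abs_of_nonneg (by linarith)]; linarith
        · intro h0
          exfalso
          rw [hww] at h0
          have hr0 : rr hiN hN (w0 hiN hN) = 0 := by
            unfold rr; simp
          rw [hr0] at h0
          have hQ := Q2_w0 P hiN hN hb
          rcases hs.lt_or_eq with h | h
          · have : 0 ≤ (1 - -s) * -(Q2 P i ⟨i, by omega⟩ (w0 hiN hN) (w0 hiN hN)) :=
              mul_nonneg (by linarith) (by linarith)
            linarith
          · rw [h] at h0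
            linarith
      · exfalso
        have hr : rr hiN hN w = 1 := by
          unfold rr
          apply min_eq_left
          push Not at hw
          nlinarith
        rw [hr] at hx1 hx2
        simp only [sub_self, mul_zero, zero_smul, add_zero] at hx1
        have hs1' : -1 < s := by
          rcases hs1.lt_or_eq with h | h
          · exact h
          · exfalso; rw [← h] at hx2; norm_num at hx2
        have hq1 : Q1 P hiN ⟨i, by omega⟩ w w = 0 := by
          rcases smul_eq_zero.1 hx1 with h | h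
          · exfalso; linarith
          · exact h
        have hq2 : Q2 P i ⟨i, by omega⟩ w w ≤ 0 := by
          by_contra hcon
          push Not at hcon
          have := mul_pos (show (0 : ℝ) < 1 - -s by linarith) hcon
          linarith
        obtain ⟨hh, hneg⟩ := hit_of P hiN hN hb h2 h3 _ _ hq1 hq2
        have := hit_diag P hiN hN hb w hh
        apply hw
        rw [this, sub_self, norm_zero]; norm_num
    · -- s ≤ -1
      have e1 : tt s = 1 := by
        unfold tt
        rw [max_eq_right (by linarith), min_eq_left (by linarith)]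
      have e2 : max 0 (-s - 1) = -s - 1 := max_eq_right (by linarith)
      simp only [G0, e1, e2, sub_self, zero_smul, zero_mul, zero_add, one_mul] at hx1 hx2 ⊢
      rcases smul_eq_zero.1 hx1 with h | h
      · exfalso
        have : rr hiN hN w = 1 := by linarith
        rw [this] at hx2; linarith
      · have hw : w = w0 hiN hN := sub_eq_zero.1 h
        have hr0 : rr hiN hN w = 0 := by
          unfold rr; rw [hw]; simp
        rw [hr0] at hx2 ⊢
        constructor
        · apply hnorm
          · rw [h]; simp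
          · rw [abs_le]; constructor <;> linarith
        · intro h0
          rw [hw]
          congr 1
          linarith

/-- final cut-off -/
noncomputable def ee (hiN : i < N) (hN : N ≤ n) (x : Wsub n N × ℝ) : ℝ :=
  min 1 (max 0 (‖x - (w0 hiN hN, -2)‖ - 10))

/-- the final map -/
noncomputable def GG (hi : 1 ≤ i) (hiN : i < N) (hN : N ≤ n) (x : Wsub n N × ℝ) : Wsub n N × ℝ :=
  ((1 - ee hiN hN x) • (G0 P hi hiN hN x).1, (1 - ee hiN hN x) * (G0 P hi hiN hN x).2 + ee hiN hN x)

/-- **Core.** A continuous map of the closed ball into the complement of `K₂ ∪ K₃` cannot agree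
with the standard embedding on the boundary. -/
theorem core (hP : Continuous P) (hi : 1 ≤ i) (hiN : i < N) (hN : N ≤ n) (hb : Bd P)
    (h2 : Miss2 i P) (h3 : Miss3 i P) : False := by
  have hG0 := continuous_G0 P hP hi hiN hN
  have hee : Continuous (ee (n := n) hiN hN) := by
    unfold ee; fun_prop
  have hee0 : ∀ x, 0 ≤ ee (n := n) hiN hN x := fun x => by
    unfold ee; exact le_min zero_le_one (le_max_left _ _)
  have hee1 : ∀ x, ee (n := n) hiN hN x ≤ 1 := fun x => by
    unfold ee; exact min_le_left _ _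
  refine topo (GG P hi hiN hN) ?_ (w0 hiN hN, -2) 11 (1 / 8) (by norm_num) (by norm_num) ?_ ?_ ?_
  · exact ((continuous_const.sub hee).smul (continuous_fst.comp hG0)).prodMk
      (((continuous_const.sub hee).mul (continuous_snd.comp hG0)).add hee)
  · intro x hx hx0
    have hx1 : (1 - ee hiN hN x) • (G0 P hi hiN hN x).1 = 0 := congrArg Prod.fst hx0
    have hx2 : (1 - ee hiN hN x) * (G0 P hi hiN hN x).2 + ee hiN hN x = 0 := congrArg Prod.snd hx0
    have hlt : ee hiN hN x < 1 := by
      rcases (hee1 x).lt_or_eq with h | h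
      · exact h
      · exfalso; rw [h] at hx2; norm_num at hx2
    have h1 : (G0 P hi hiN hN x).1 = 0 := by
      rcases smul_eq_zero.1 hx1 with h | h
      · exfalso; linarith
      · exact h
    have h2' : (G0 P hi hiN hN x).2 ≤ 0 := by
      by_contra hcon
      push Not at hcon
      have := mul_pos (show (0 : ℝ) < 1 - ee hiN hN x by linarith) hcon
      linarith [hee0 x]
    obtain ⟨k1, k2⟩ := G0_key P hi hiN hN hb h2 h3 x h1 h2'
    have he : ee hiN hN x = 0 := by
      unfold ee
      rw [max_eq_left (by linarith)]; simp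
    rw [he] at hx2
    apply hx
    apply k2
    linarith
  · intro x hx
    have he : ee hiN hN x = 1 := by
      unfold ee
      rw [max_eq_right (by linarith), min_eq_left (by linarith)]
    unfold GG
    rw [he]; simp
  · intro x hx l hl hl1 hl2
    have hx1 : ‖x.1‖ ≤ 1 / 8 := by rw [← hx]; exact norm_fst_le x
    have hx2 : |x.2| ≤ 1 / 8 := by
      rw [← hx]; exact norm_snd_le x
    have hx2' := abs_le.1 hx2
    have he : ee hiN hN ((w0 hiN hN, -2) + x) = 0 := by
      unfold ee
      rw [add_sub_cancel_left, hx, max_eq_left (by norm_num)]; simp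
    have hs : ((w0 hiN hN, (-2 : ℝ)) + x).2 = -2 + x.2 := rfl
    have hw : ((w0 hiN hN, (-2 : ℝ)) + x).1 = w0 hiN hN + x.1 := rfl
    have e1 : tt (-2 + x.2) = 1 := by
      unfold tt
      rw [max_eq_right (by linarith), min_eq_left (by linarith)]
    have e2 : max 0 (-(-2 + x.2) - 1) = 1 - x.2 := by
      rw [max_eq_right (by linarith)]; ring
    have hr : rr hiN hN (w0 hiN hN + x.1) = 16 * ‖x.1‖ ^ 2 := by
      unfold rr
      rw [add_sub_cancel_left]
      apply min_eq_right
      nlinarith [norm_nonneg x.1]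
    simp only [GG, he, G0, hs, hw, e1, e2, hr, sub_self, zero_smul, zero_add, zero_mul, one_mul,
      sub_zero, one_smul, add_zero, add_sub_cancel_left] at hl1 hl2
    have hlt : 16 * ‖x.1‖ ^ 2 < 1 := by nlinarith [norm_nonneg x.1]
    have h4 : ((1 - 16 * ‖x.1‖ ^ 2) + l) • x.1 = 0 := by
      rw [add_smul, hl1]; simp
    have hx10 : x.1 = 0 := by
      rcases smul_eq_zero.1 h4 with h | h
      · exfalso; linarith
      · exact h
    rw [hx10, norm_zero] at hl2
    have h5 : (l + 1) * x.2 = 0 := by linarith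
    have hx20 : x.2 = 0 := by
      rcases mul_eq_zero.1 h5 with h | h
      · exfalso; linarith
      · exact h
    have : x = 0 := Prod.ext hx10 hx20
    rw [this] at hx
    norm_num at hx

end core

end Pool.Agent.K4H52.Brun
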