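import Mathlib
import Pool.Agent.K4H52.Brun.Ball
import Pool.Agent.K4H52.Brun.Core4

open Metric Set Filter Topology

namespace Pool.Agent.K4H52.Brun

section
variable {i j n : ℕ}

theorem sq_split (P Q R : ℕ → Prop) [DecidablePred P] [DecidablePred Q] [DecidablePred R]
    (x : EuclideanSpace ℝ (Fin n)) (h : ∀ p : ℕ, p < n → (R p ↔ P p ∨ Q p))
    (h' : ∀ p : ℕ, ¬ (P p ∧ Q p)) :
    sq R x = sq P x + sq Q x := by
  unfold sq
  rw [← Finset.sum_add_distrib]
  refine Finset.sum_congr rfl fun p _ => ?_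
  have h1 := h p p.2
  have h2 := h' p
  by_cases hP : P p
  · have hQ : ¬ Q p := fun hq => h2 ⟨hP, hq⟩
    have hR : R p := h1.2 (Or.inl hP)
    simp [hP, hQ, hR]
  · by_cases hQ : Q p
    · have hR : R p := h1.2 (Or.inr hQ)
      simp [hP, hQ, hR]
    · have hR : ¬ R p := by rw [h1]; tauto
      simp [hP, hQ, hR]

theorem mem_K1 (hij : i + j + 2 ≤ n) (x : EuclideanSpace ℝ (Fin n)) :
    x ∈ L i j n 0 ↔ al i x + be i (n - j - 1) x = 4 ∧ ga (n - j - 1) x = 0 := by
  have e : L i j n 0 = {x | (∑ p : Fin n with p.val + 1 ≤ n - j - 1, x p ^ 2) = 4 ∧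
        ∀ p : Fin n, n - j ≤ p.val + 1 → x p = 0} := rfl
  rw [e, mem_ofPred_eq, Finset.sum_filter]
  have h1 : (∑ p : Fin n, if p.val + 1 ≤ n - j - 1 then x p ^ 2 else 0) =
      al i x + be i (n - j - 1) x :=
    sq_split (fun p => p < i) (fun p => i ≤ p ∧ p < n - j - 1) (fun p => p + 1 ≤ n - j - 1) x
      (fun p _ => by omega) (fun p => by omega)
  rw [h1]
  unfold ga
  rw [sq_eq_zero']
  refine and_congr Iff.rfl (forall_congr' fun p => ?_)
  have : (n - j ≤ p.val + 1) ↔ (n - j - 1 ≤ (p : ℕ)) := by omega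
  rw [this]

theorem mem_K2 (hij : i + j + 2 ≤ n) (x : EuclideanSpace ℝ (Fin n)) :
    x ∈ L i j n 1 ↔ be i (n - j - 1) x + ga (n - j - 1) x = 9 ∧ al i x = 0 := by
  have e : L i j n 1 = {x | (∑ p : Fin n with i + 1 ≤ p.val + 1, x p ^ 2) = 9 ∧
        ∀ p : Fin n, p.val + 1 ≤ i → x p = 0} := rfl
  rw [e, mem_ofPred_eq, Finset.sum_filter]
  have h1 : (∑ p : Fin n, if i + 1 ≤ p.val + 1 then x p ^ 2 else 0) =
      be i (n - j - 1) x + ga (n - j - 1) x :=
    sq_split (fun p => i ≤ p ∧ p < n - j - 1) (fun p => n - j - 1 ≤ p) (fun p => i + 1 ≤ p + 1) x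
      (fun p _ => by omega) (fun p => by omega)
  rw [h1]
  unfold al
  rw [sq_eq_zero']
  refine and_congr Iff.rfl (forall_congr' fun p => ?_)
  have : (p.val + 1 ≤ i) ↔ ((p : ℕ) < i) := by omega
  rw [this]

theorem mem_K3 (hij : i + j + 2 ≤ n) (x : EuclideanSpace ℝ (Fin n)) :
    x ∈ L i j n 2 ↔ al i x + ga (n - j - 1) x / 16 = 1 ∧ be i (n - j - 1) x = 0 := by
  have e : L i j n 2 = {x | (∑ p : Fin n with p.val + 1 ≤ i, x p ^ 2) +
          1 / 16 * (∑ p : Fin n with n - j ≤ p.val + 1, x p ^ 2) = 1 ∧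
        ∀ p : Fin n, i + 1 ≤ p.val + 1 → p.val + 1 ≤ n - j - 1 → x p = 0} := rfl
  rw [e, mem_ofPred_eq, Finset.sum_filter, Finset.sum_filter]
  have h1 : (∑ p : Fin n, if p.val + 1 ≤ i then x p ^ 2 else 0) = al i x := by
    unfold al sq
    refine Finset.sum_congr rfl fun p _ => ?_
    have : (p.val + 1 ≤ i) ↔ ((p : ℕ) < i) := by omega
    simp only [this]
  have h2 : (∑ p : Fin n, if n - j ≤ p.val + 1 then x p ^ 2 else 0) = ga (n - j - 1) x := by
    unfold ga sq
    refine Finset.sum_congr rfl fun p _ => ?_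
    have : (n - j ≤ p.val + 1) ↔ (n - j - 1 ≤ (p : ℕ)) := by omega
    simp only [this]
  rw [h1, h2]
  unfold be
  rw [sq_eq_zero']
  have h3 : (1 / 16 * ga (n - j - 1) x) = ga (n - j - 1) x / 16 := by ring
  rw [h3]
  refine and_congr Iff.rfl (forall_congr' fun p => ?_)
  have : (i + 1 ≤ p.val + 1 → p.val + 1 ≤ n - j - 1 → x p = 0) ↔
      ((i ≤ (p : ℕ) ∧ (p : ℕ) < n - j - 1) → x p = 0) := by
    constructor
    · intro h hp; exact h (by omega) (by omega)
    · intro h hp hp'; exact h (by omega)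
  rw [this]

/-- From a ball bounded by `K₁` one gets the map `P` of `core`. -/
theorem exists_P (hi : 1 ≤ i) (hij : i + j + 2 ≤ n) (B : Set (EuclideanSpace ℝ (Fin n)))
    (hB : BoundsBall (L i j n 0) B) :
    ∃ P : Wsub n (n - j - 1) → EuclideanSpace ℝ (Fin n), Continuous P ∧ Bd P ∧ ∀ w, P w ∈ B := by
  classical
  obtain ⟨k, h, hF⟩ := hB
  have hiN : i < n - j - 1 := by omega
  -- the standard embedding lands in `K₁`
  have hK : ∀ w : Wsub n (n - j - 1), w ≠ 0 →
      (2 / ‖w‖) • (w : EuclideanSpace ℝ (Fin n)) ∈ L i j n 0 := by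
    intro w hw
    have hwp : 0 < ‖w‖ := norm_pos_iff.2 hw
    rw [mem_K1 hij, al_smul, be_smul, ga_smul, ga_W]
    refine ⟨?_, by simp⟩
    rw [← mul_add, ← norm_sq_W hiN w]
    field_simp
    norm_num
  have hKB : ∀ y ∈ L i j n 0, y ∈ B := by
    intro y hy
    rw [hF] at hy
    obtain ⟨x, _, rfl⟩ := hy
    exact (h x).2
  have hKn : ∀ y (hy : y ∈ L i j n 0), ‖((h.symm ⟨y, hKB y hy⟩ :
      closedBall (0 : EuclideanSpace ℝ (Fin (k + 1))) 1) : EuclideanSpace ℝ (Fin (k + 1)))‖ = 1 := by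
    intro y hy
    have hy' := hy
    rw [hF] at hy'
    obtain ⟨x, hx, rfl⟩ := hy'
    have : (⟨(h x : EuclideanSpace ℝ (Fin n)), hKB _ hy⟩ : B) = h x := rfl
    rw [this, h.symm_apply_apply]
    exact hx
  let g : Wsub n (n - j - 1) → EuclideanSpace ℝ (Fin (k + 1)) := fun w =>
    if hw : w ≠ 0 then ((h.symm ⟨_, hKB _ (hK w hw)⟩ :
      closedBall (0 : EuclideanSpace ℝ (Fin (k + 1))) 1) : EuclideanSpace ℝ (Fin (k + 1))) else 0
  have hg1 : ∀ w, w ≠ 0 → ‖g w‖ = 1 := by
    intro w hw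
    simp only [g]
    rw [dif_pos hw]
    exact hKn _ (hK w hw)
  have hg2 : ∀ w, ‖g w‖ ≤ 1 := by
    intro w
    by_cases hw : w ≠ 0
    · exact (hg1 w hw).le
    · simp only [g]
      rw [dif_neg hw]; simp
  have hgc : ContinuousOn g {w | w ≠ 0} := by
    rw [continuousOn_iff_continuous_restrict]
    have : ({w | w ≠ 0} : Set (Wsub n (n - j - 1))).domRestrict g = fun w =>
        ((h.symm ⟨_, hKB _ (hK w.1 w.2)⟩ :
          closedBall (0 : EuclideanSpace ℝ (Fin (k + 1))) 1) : EuclideanSpace ℝ (Fin (k + 1))) := by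
      funext w
      have hw : (w : Wsub n (n - j - 1)) ≠ 0 := w.2
      show g w = _
      simp only [g]
      rw [dif_pos hw]
    rw [this]
    refine continuous_subtype_val.comp (h.symm.continuous.comp ?_)
    refine Continuous.subtype_mk ?_ _
    have h1 : Continuous (fun w : ({w | w ≠ 0} : Set (Wsub n (n - j - 1))) => 2 / ‖(w : Wsub n (n - j - 1))‖) := by
      refine continuous_const.div (by fun_prop) fun w => ?_
      exact (norm_pos_iff.2 w.2).ne'
    have h2 : Continuous (fun w : ({w | w ≠ 0} : Set (Wsub n (n - j - 1))) =>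
        ((w : Wsub n (n - j - 1)) : EuclideanSpace ℝ (Fin n))) :=
      continuous_subtype_val.comp continuous_subtype_val
    exact h1.smul h2
  let θ : Wsub n (n - j - 1) → EuclideanSpace ℝ (Fin (k + 1)) := fun w => (min 1 ‖w‖) • g w
  have hθn : ∀ w, ‖θ w‖ ≤ min 1 ‖w‖ := by
    intro w
    have h0 : 0 ≤ min 1 ‖w‖ := le_min zero_le_one (norm_nonneg _)
    simp only [θ, norm_smul, Real.norm_eq_abs, abs_of_nonneg h0]
    exact mul_le_of_le_one_right h0 (hg2 w)
  have hθc : Continuous θ := by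
    rw [continuous_iff_continuousAt]
    intro w
    by_cases hw : w = 0
    · have hθ0 : θ w = 0 := by
        have := hθn w
        rw [hw, norm_zero, min_eq_right zero_le_one] at this
        rw [hw]
        exact norm_le_zero_iff.1 this
      rw [ContinuousAt, hθ0]
      refine squeeze_zero_norm (a := fun w : Wsub n (n - j - 1) => ‖w‖) (fun v => (hθn v).trans (min_le_right _ _)) ?_
      have : Continuous (fun w : Wsub n (n - j - 1) => ‖w‖) := continuous_norm
      have h1 := this.tendsto w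
      rw [hw] at h1 ⊢
      simpa using h1
    · have h1 : ContinuousAt g w := hgc.continuousAt (isOpen_ne.mem_nhds hw)
      have h2 : ContinuousAt (fun w : Wsub n (n - j - 1) => min 1 ‖w‖) w := by fun_prop
      exact h2.smul h1
  have hθb : ∀ w, θ w ∈ closedBall (0 : EuclideanSpace ℝ (Fin (k + 1))) 1 := by
    intro w
    rw [mem_closedBall_zero_iff]
    exact (hθn w).trans (min_le_left _ _)
  refine ⟨fun w => (h ⟨θ w, hθb w⟩ : EuclideanSpace ℝ (Fin n)), ?_, ?_, fun w => (h _).2⟩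
  · exact continuous_subtype_val.comp (h.continuous.comp (Continuous.subtype_mk hθc _))
  · intro w hw
    have hw0 : w ≠ 0 := by
      intro h0; rw [h0, norm_zero] at hw; linarith
    have h1 : θ w = g w := by
      simp only [θ, min_eq_left hw, one_smul]
    have h2 : g w = ((h.symm ⟨_, hKB _ (hK w hw0)⟩ :
      closedBall (0 : EuclideanSpace ℝ (Fin (k + 1))) 1) : EuclideanSpace ℝ (Fin (k + 1))) := by
      simp only [g]; rw [dif_pos hw0]
    have h3 : (⟨θ w, hθb w⟩ : closedBall (0 : EuclideanSpace ℝ (Fin (k + 1))) 1) =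
        h.symm ⟨_, hKB _ (hK w hw0)⟩ := by
      apply Subtype.ext
      show θ w = _
      rw [h1, h2]
    show (h ⟨θ w, hθb w⟩ : EuclideanSpace ℝ (Fin n)) = _
    rw [h3, h.apply_symm_apply]

theorem not_unlink (hi : 1 ≤ i) (hij : i + j + 2 ≤ n) : ¬ IsUnlink (L i j n) := by
  intro hU
  obtain ⟨B, hB, hd⟩ := hU 0
  have hd1 : Disjoint B (L i j n 1) := hd 1 (by decide)
  have hd2 : Disjoint B (L i j n 2) := hd 2 (by decide)
  obtain ⟨P, hPc, hPb, hPB⟩ := exists_P hi hij B hB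
  have hiN : i < n - j - 1 := by omega
  refine core P hPc hi hiN (by omega) hPb ?_ ?_
  · intro w h1 h2
    apply Set.disjoint_left.1 hd1 (hPB w)
    rw [mem_K2 hij]
    unfold yy at h2
    exact ⟨by linarith, h1⟩
  · intro w h1 h2
    apply Set.disjoint_left.1 hd2 (hPB w)
    rw [mem_K3 hij]
    exact ⟨h2, h1⟩

end

end Pool.Agent.K4H52.Brun
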