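import Mathlib
import Pool.Agent.K4H52.Brun.Final

open Metric Set Filter Topology

namespace Pool.Agent.K4H52.Brun

section
variable {i j n : ℕ}

theorem sq_single (A : ℕ → Prop) [DecidablePred A] (y : EuclideanSpace ℝ (Fin n)) (k0 : Fin n)
    (hk : A k0) (h : ∀ p : Fin n, A p → p ≠ k0 → y p = 0) : sq A y = y k0 ^ 2 := by
  unfold sq
  rw [Finset.sum_eq_single k0]
  · rw [if_pos hk]
  · intro p _ hp
    split_ifs with hA
    · rw [h p hA hp]; norm_num
    · rfl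
  · intro h; exact absurd (Finset.mem_univ _) h

theorem ballK1 (hi : 1 ≤ i) (hij : i + j + 2 ≤ n) (t : ℝ) :
    ∃ B, BoundsBall (L i j n 0) B ∧ ∀ y ∈ B,
      ga (n - j - 1) y = t ^ 2 * (1 - (al i y + be i (n - j - 1) y) / 4) ∧
      (al i y + be i (n - j - 1) y) / 4 ≤ 1 := by
  classical
  set N := n - j - 1 with hN
  have hmem : ∀ p : Fin n, p ∉ (Finset.univ.filter fun p : Fin n => (p : ℕ) < N) ↔ N ≤ (p : ℕ) := by
    intro p; simp
  have hsum : ∀ y : EuclideanSpace ℝ (Fin n),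
      ∑ p ∈ (Finset.univ.filter fun p : Fin n => (p : ℕ) < N), (y p / 2) ^ 2 =
        (al i y + be i N y) / 4 := by
    intro y
    have h1 : sq (fun p => p < N) y = al i y + be i N y :=
      sq_split (fun p => p < i) (fun p => i ≤ p ∧ p < N) (fun p => p < N) y
        (fun p _ => by omega) (fun p => by omega)
    rw [← h1]
    unfold sq
    rw [Finset.sum_filter, Finset.sum_div]
    refine Finset.sum_congr rfl fun p _ => ?_
    split_ifs
    · ring
    · simp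
  have hb := hemi (Finset.univ.filter fun p : Fin n => (p : ℕ) < N) ⟨⟨0, by omega⟩, by simp; omega⟩
    (fun _ => (2 : ℝ)) (fun _ => by norm_num) ⟨N, by omega⟩ (by simp) t
  have hF : L i j n 0 = {y | (∀ p, p ∉ (Finset.univ.filter fun p : Fin n => (p : ℕ) < N) → y p = 0) ∧
      ∑ p ∈ (Finset.univ.filter fun p : Fin n => (p : ℕ) < N), (y p / 2) ^ 2 = 1} := by
    ext y
    rw [mem_K1 hij, mem_ofPred_eq, hsum, and_comm]
    refine and_congr ?_ ?_
    · unfold ga; rw [sq_eq_zero']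
      exact forall_congr' fun p => by rw [hmem]
    · constructor <;> intro h <;> linarith
  rw [hF]
  refine ⟨_, hb, fun y hy => ?_⟩
  obtain ⟨h1, h2, h3⟩ := hy
  rw [hsum] at h2 h3
  refine ⟨?_, h2⟩
  have h4 : ga N y = y ⟨N, by omega⟩ ^ 2 :=
    sq_single _ y ⟨N, by omega⟩ (le_refl N) (fun p hp hp0 => h1 p ((hmem p).2 hp) hp0)
  rw [h4, h3, mul_pow, Real.sq_sqrt (by linarith)]

theorem ballK2 (hi : 1 ≤ i) (hij : i + j + 2 ≤ n) (t : ℝ) :
    ∃ B, BoundsBall (L i j n 1) B ∧ ∀ y ∈ B,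
      al i y = t ^ 2 * (1 - (be i (n - j - 1) y + ga (n - j - 1) y) / 9) ∧
      (be i (n - j - 1) y + ga (n - j - 1) y) / 9 ≤ 1 := by
  classical
  set N := n - j - 1 with hN
  have hmem : ∀ p : Fin n, p ∉ (Finset.univ.filter fun p : Fin n => i ≤ (p : ℕ)) ↔ (p : ℕ) < i := by
    intro p; simp
  have hsum : ∀ y : EuclideanSpace ℝ (Fin n),
      ∑ p ∈ (Finset.univ.filter fun p : Fin n => i ≤ (p : ℕ)), (y p / 3) ^ 2 =
        (be i N y + ga N y) / 9 := by
    intro y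
    have h1 : sq (fun p => i ≤ p) y = be i N y + ga N y :=
      sq_split (fun p => i ≤ p ∧ p < N) (fun p => N ≤ p) (fun p => i ≤ p) y
        (fun p _ => by omega) (fun p => by omega)
    rw [← h1]
    unfold sq
    rw [Finset.sum_filter, Finset.sum_div]
    refine Finset.sum_congr rfl fun p _ => ?_
    split_ifs
    · ring
    · simp
  have hb := hemi (Finset.univ.filter fun p : Fin n => i ≤ (p : ℕ)) ⟨⟨i, by omega⟩, by simp⟩
    (fun _ => (3 : ℝ)) (fun _ => by norm_num) ⟨0, by omega⟩ (by simp; omega) t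
  have hF : L i j n 1 = {y | (∀ p, p ∉ (Finset.univ.filter fun p : Fin n => i ≤ (p : ℕ)) → y p = 0) ∧
      ∑ p ∈ (Finset.univ.filter fun p : Fin n => i ≤ (p : ℕ)), (y p / 3) ^ 2 = 1} := by
    ext y
    rw [mem_K2 hij, mem_ofPred_eq, hsum, and_comm]
    refine and_congr ?_ ?_
    · unfold al; rw [sq_eq_zero']
      exact forall_congr' fun p => by rw [hmem]
    · constructor <;> intro h <;> linarith
  rw [hF]
  refine ⟨_, hb, fun y hy => ?_⟩
  obtain ⟨h1, h2, h3⟩ := hy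
  rw [hsum] at h2 h3
  refine ⟨?_, h2⟩
  have h4 : al i y = y ⟨0, by omega⟩ ^ 2 :=
    sq_single _ y ⟨0, by omega⟩ (by show 0 < i; omega) (fun p hp hp0 => h1 p ((hmem p).2 hp) hp0)
  rw [h4, h3, mul_pow, Real.sq_sqrt (by linarith)]

theorem ballK3 (hi : 1 ≤ i) (hij : i + j + 2 ≤ n) (t : ℝ) :
    ∃ B, BoundsBall (L i j n 2) B ∧ ∀ y ∈ B,
      be i (n - j - 1) y = t ^ 2 * (1 - (al i y + ga (n - j - 1) y / 16)) ∧
      al i y + ga (n - j - 1) y / 16 ≤ 1 := by
  classical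
  set N := n - j - 1 with hN
  have hmem : ∀ p : Fin n, p ∉ (Finset.univ.filter fun p : Fin n => (p : ℕ) < i ∨ N ≤ (p : ℕ)) ↔
      (i ≤ (p : ℕ) ∧ (p : ℕ) < N) := by
    intro p; simp
  have hsum : ∀ y : EuclideanSpace ℝ (Fin n),
      ∑ p ∈ (Finset.univ.filter fun p : Fin n => (p : ℕ) < i ∨ N ≤ (p : ℕ)),
        (y p / (if (p : ℕ) < i then 1 else 4)) ^ 2 = al i y + ga N y / 16 := by
    intro y
    unfold al ga sq
    rw [Finset.sum_filter, Finset.sum_div, ← Finset.sum_add_distrib]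
    refine Finset.sum_congr rfl fun p _ => ?_
    by_cases h1 : (p : ℕ) < i
    · have h2 : ¬ N ≤ (p : ℕ) := by omega
      simp [h1, h2]
    · by_cases h2 : N ≤ (p : ℕ)
      · simp [h1, h2]; ring
      · simp [h1, h2]
  have hb := hemi (Finset.univ.filter fun p : Fin n => (p : ℕ) < i ∨ N ≤ (p : ℕ))
    ⟨⟨0, by omega⟩, by simp; omega⟩
    (fun p => if (p : ℕ) < i then 1 else 4) (fun p => by split_ifs <;> norm_num) ⟨i, by omega⟩
    (by simp; omega) t
  have hF : L i j n 2 = {y | (∀ p, p ∉ (Finset.univ.filter fun p : Fin n => (p : ℕ) < i ∨ N ≤ (p : ℕ)) →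
      y p = 0) ∧ ∑ p ∈ (Finset.univ.filter fun p : Fin n => (p : ℕ) < i ∨ N ≤ (p : ℕ)),
        (y p / (if (p : ℕ) < i then 1 else 4)) ^ 2 = 1} := by
    ext y
    rw [mem_K3 hij, mem_ofPred_eq, hsum, and_comm]
    refine and_congr ?_ Iff.rfl
    unfold be; rw [sq_eq_zero']
    exact forall_congr' fun p => by rw [hmem]
  rw [hF]
  refine ⟨_, hb, fun y hy => ?_⟩
  obtain ⟨h1, h2, h3⟩ := hy
  rw [hsum] at h2 h3
  refine ⟨?_, h2⟩
  have h4 : be i N y = y ⟨i, by omega⟩ ^ 2 :=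
    sq_single _ y ⟨i, by omega⟩ (by constructor <;> simp; omega)
      (fun p hp hp0 => h1 p ((hmem p).2 hp) hp0)
  rw [h4, h3, mul_pow, Real.sq_sqrt (by linarith)]

theorem pair (hi : 1 ≤ i) (hij : i + j + 2 ≤ n) (a b : Fin 3) (hab : a ≠ b) :
    ∃ B, BoundsBall (L i j n a) B ∧ Disjoint B (L i j n b) := by
  fin_cases a <;> fin_cases b
  · exact absurd rfl hab
  · obtain ⟨B, hB, h⟩ := ballK1 hi hij 0
    refine ⟨B, hB, Set.disjoint_left.2 fun y hy hy' => ?_⟩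
    obtain ⟨h1, h2⟩ := h y hy
    obtain ⟨h3, h4⟩ := (mem_K2 hij y).1 hy'
    have := al_nonneg (i := i) y
    linarith
  · obtain ⟨B, hB, h⟩ := ballK1 hi hij 5
    refine ⟨B, hB, Set.disjoint_left.2 fun y hy hy' => ?_⟩
    obtain ⟨h1, h2⟩ := h y hy
    obtain ⟨h3, h4⟩ := (mem_K3 hij y).1 hy'
    have := al_nonneg (i := i) y
    rw [h4] at h1
    linarith
  · obtain ⟨B, hB, h⟩ := ballK2 hi hij 3
    refine ⟨B, hB, Set.disjoint_left.2 fun y hy hy' => ?_⟩
    obtain ⟨h1, h2⟩ := h y hy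
    obtain ⟨h3, h4⟩ := (mem_K1 hij y).1 hy'
    linarith
  · exact absurd rfl hab
  · obtain ⟨B, hB, h⟩ := ballK2 hi hij 0
    refine ⟨B, hB, Set.disjoint_left.2 fun y hy hy' => ?_⟩
    obtain ⟨h1, h2⟩ := h y hy
    obtain ⟨h3, h4⟩ := (mem_K3 hij y).1 hy'
    have := be_nonneg (i := i) (N := n - j - 1) y
    linarith
  · obtain ⟨B, hB, h⟩ := ballK3 hi hij 0
    refine ⟨B, hB, Set.disjoint_left.2 fun y hy hy' => ?_⟩
    obtain ⟨h1, h2⟩ := h y hy
    obtain ⟨h3, h4⟩ := (mem_K1 hij y).1 hy'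
    linarith
  · obtain ⟨B, hB, h⟩ := ballK3 hi hij (7 / 2)
    refine ⟨B, hB, Set.disjoint_left.2 fun y hy hy' => ?_⟩
    obtain ⟨h1, h2⟩ := h y hy
    obtain ⟨h3, h4⟩ := (mem_K2 hij y).1 hy'
    have := ga_nonneg (N := n - j - 1) y
    rw [h4] at h1
    linarith
  · exact absurd rfl hab

theorem disj (hij : i + j + 2 ≤ n) (a b : Fin 3) (hab : a ≠ b) :
    Disjoint (L i j n a) (L i j n b) := by
  have h01 : Disjoint (L i j n 0) (L i j n 1) := by
    refine Set.disjoint_left.2 fun y hy hy' => ?_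
    obtain ⟨h1, h2⟩ := (mem_K1 hij y).1 hy
    obtain ⟨h3, h4⟩ := (mem_K2 hij y).1 hy'
    linarith
  have h02 : Disjoint (L i j n 0) (L i j n 2) := by
    refine Set.disjoint_left.2 fun y hy hy' => ?_
    obtain ⟨h1, h2⟩ := (mem_K1 hij y).1 hy
    obtain ⟨h3, h4⟩ := (mem_K3 hij y).1 hy'
    linarith
  have h12 : Disjoint (L i j n 1) (L i j n 2) := by
    refine Set.disjoint_left.2 fun y hy hy' => ?_
    obtain ⟨h1, h2⟩ := (mem_K2 hij y).1 hy
    obtain ⟨h3, h4⟩ := (mem_K3 hij y).1 hy'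
    linarith
  fin_cases a <;> fin_cases b
  · exact absurd rfl hab
  · exact h01
  · exact h02
  · exact h01.symm
  · exact absurd rfl hab
  · exact h12
  · exact h02.symm
  · exact h12.symm
  · exact absurd rfl hab

theorem brunnian (hi : 1 ≤ i) (hij : i + j + 2 ≤ n) : IsBrunnian (L i j n) := by
  refine ⟨le_refl 3, ⟨?_, fun a b hab => disj hij a b hab⟩, not_unlink hi hij, ?_⟩
  · intro a
    obtain ⟨b, hb⟩ : ∃ b : Fin 3, a ≠ b := by
      fin_cases a
      · exact ⟨1, by decide⟩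
      · exact ⟨0, by decide⟩
      · exact ⟨0, by decide⟩
    obtain ⟨B, hB, _⟩ := pair hi hij a b hb
    exact hB.isKnot
  · intro s hs a
    obtain ⟨c, hc⟩ : ∃ c, c ∉ s := by
      by_contra h
      push Not at h
      exact hs (eq_univ_of_forall h)
    have hac : (a : Fin 3) ≠ c := by
      rintro rfl; exact hc a.2
    obtain ⟨b, hb1, hb2⟩ : ∃ b : Fin 3, (a : Fin 3) ≠ b ∧ ∀ d : Fin 3, d ≠ a → d ≠ c → d = b := by
      revert hac
      generalize (a : Fin 3) = a'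
      clear hc
      revert a' c
      decide
    obtain ⟨B, hB, hd⟩ := pair hi hij a b hb1
    refine ⟨B, hB, fun d hd' => ?_⟩
    have h1 : (d : Fin 3) ≠ a := fun h => hd' (Subtype.ext h)
    have h2 : (d : Fin 3) ≠ c := by
      rintro h; exact hc (h ▸ d.2)
    show Disjoint B (L i j n d)
    rw [hb2 d h1 h2]
    exact hd

end

end Pool.Agent.K4H52.Brun
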